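import Pool.Agent.H175F.Col

/-!
# COLOURING is polynomial on (P_1 + P_4, complement of P_2 + P_3)-free graphs
-/

namespace Pool.Agent.Results.MP_ff2a9a_lc.CoP2P3P1P4

open Pool.Agent.H175G.Col Pool.Agent.H333R2.Col

/-- Q1, positive answer: COLOURING (graph and number of colours in the input) can be solved in
polynomial time on the graphs without induced `P_1 + P_4` and without the complement of
`P_2 + P_3` as an induced subgraph. -/
theorem result :
    ColouringInPOn (fun _ G => ¬ P1_P4.IsIndContained G ∧ ¬ P2_P3ᶜ.IsIndContained G) :=
  col_compl Pool.Agent.H175G.main_stmt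

end Pool.Agent.Results.MP_ff2a9a_lc.CoP2P3P1P4
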